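import Pool.Agent.Lib.MP_12cf61_al.Final
import Pool.Agent.Lib.TGX.Defs

set_option autoImplicit false

/-!
# D.Count: groups with few generators are few

Section 4 of the paper.
-/

namespace Pool.Agent.Lib.TGX

open Equiv Filter Pool.Agent.Lib.TG12

/-- the bound for the number of generators -/
def gb (C0 d : ℕ) : ℕ := C0 * (Nat.sqrt d + 1) * lg d ^ 12

theorem gb_mono (C0 : ℕ) {d n : ℕ} (h : d ≤ n) : gb C0 d ≤ gb C0 n := by
  unfold gb
  have h1 := Nat.sqrt_le_sqrt h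
  have h2 := lg_mono h
  gcongr

/-- groups with at most `K` generators -/
theorem ncard_gens (d K : ℕ) (P : Set (Subgroup (Perm (Fin d))))
    (h : ∀ L ∈ P, ∃ (k : ℕ) (f : Fin k → Perm (Fin d)), k ≤ K ∧
      L = Subgroup.closure (Set.range f)) : P.ncard ≤ d.factorial ^ K := by
  classical
  have h1 : P ⊆ Set.range (fun f : Fin K → Perm (Fin d) => Subgroup.closure (Set.range f)) := by
    intro L hL
    obtain ⟨k, f, hk, rfl⟩ := h L hL
    refine ⟨fun i => if hi : i.1 < k then f ⟨i.1, hi⟩ else 1, ?_⟩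
    apply le_antisymm
    · rw [Subgroup.closure_le]
      rintro _ ⟨i, rfl⟩
      by_cases hi : i.1 < k
      · simp only [hi, dif_pos]
        exact Subgroup.subset_closure ⟨_, rfl⟩
      · simp only [hi, dif_neg, not_false_iff]
        exact Subgroup.one_mem _
    · rw [Subgroup.closure_le]
      rintro _ ⟨i, rfl⟩
      refine Subgroup.subset_closure ⟨⟨i.1, by omega⟩, ?_⟩
      simp
  calc P.ncard ≤ (Set.range (fun f : Fin K → Perm (Fin d) =>
        Subgroup.closure (Set.range f))).ncard := Set.ncard_le_ncard h1 (Set.toFinite _)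
    _ ≤ (Set.univ : Set (Fin K → Perm (Fin d))).ncard := by
        rw [← Set.image_univ]
        exact Set.ncard_image_le (Set.toFinite _)
    _ = d.factorial ^ K := by
        rw [Set.ncard_univ, Nat.card_eq_fintype_card, Fintype.card_fun, Fintype.card_perm,
          Fintype.card_fin, Fintype.card_fin]

section

variable (C0 : ℕ) (gens : ∀ (d : ℕ) (L : Subgroup (Perm (Fin d))), L ∈ Tr (Fin d) →
  ¬ HasExpGrowth L → ∃ k : ℕ, k ≤ C0 * (Nat.sqrt d + 1) * lg d ^ 12 ∧ Gen ⊥ L k)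

include gens in
/-- the number of bad classes -/
theorem bad_le (n : ℕ) : ∑ d ∈ Finset.Icc 1 n, numClasses {L ∈ Tr (Fin d) | ¬ HasExpGrowth L} ≤
    n * n.factorial ^ gb C0 n := by
  calc ∑ d ∈ Finset.Icc 1 n, numClasses {L ∈ Tr (Fin d) | ¬ HasExpGrowth L}
      ≤ ∑ _d ∈ Finset.Icc 1 n, n.factorial ^ gb C0 n := by
        refine Finset.sum_le_sum fun d hd => ?_
        rw [Finset.mem_Icc] at hd
        refine (numClasses_le _).trans ((ncard_gens d (gb C0 d) _ ?_).trans ?_)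
        · rintro L ⟨h1, h2⟩
          obtain ⟨k, hk, t, ht, htL⟩ := gens d L h1 h2
          refine ⟨t.card, fun i => (t.equivFin.symm i : Perm (Fin d)), ht.trans hk, ?_⟩
          rw [← htL, bot_sup_eq]
          congr 1
          ext g
          constructor
          · intro hg
            exact ⟨t.equivFin ⟨g, hg⟩, by simp⟩
          · rintro ⟨i, rfl⟩
            exact (t.equivFin.symm i).2
        · calc d.factorial ^ gb C0 d ≤ n.factorial ^ gb C0 d :=
                Nat.pow_le_pow_left (Nat.factorial_le hd.2) _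
            _ ≤ n.factorial ^ gb C0 n :=
                Nat.pow_le_pow_right (Nat.factorial_pos n) (gb_mono C0 hd.2)
    _ = n * n.factorial ^ gb C0 n := by simp

end

/-- the lower bound for the number of classes -/
theorem permN_lower (n j : ℕ) (hj : 2 ^ j ≤ n) : s2 j ≤ permN n * (2 ^ j).factorial := by
  have h1 : (T2 (Fin (2 ^ j))).ncard ≤ (Tr (Fin (2 ^ j))).ncard :=
    Set.ncard_le_ncard (fun L hL => hL.1) (Set.toFinite _)
  have h2 := ncard_le_numClasses (Tr (Fin (2 ^ j)))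
  have h3 : numClasses (Tr (Fin (2 ^ j))) ≤ permN n :=
    Finset.single_le_sum (f := fun d => numClasses (Tr (Fin d))) (fun _ _ => Nat.zero_le _)
      (Finset.mem_Icc.2 ⟨Nat.one_le_two_pow, hj⟩)
  have h1' : s2 j ≤ (Tr (Fin (2 ^ j))).ncard := h1
  exact h1'.trans (h2.trans (Nat.mul_le_mul_right _ h3))

/-- the numerical comparison -/
theorem numeric (C0 : ℕ) : ∀ᶠ j : ℕ in atTop, ∀ a0 : ℕ, 2 ^ j ≤ 8 * j * a0 →
    2 * (j + 1) + (j + 1) * 2 ^ (j + 1) * (gb C0 (2 ^ (j + 1)) + 1) ≤ a0 ^ 2 := by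
  filter_upwards [Asym.pow_le_two_pow 64, eventually_ge_atTop (C0 + 64)] with j h64 hj a0 ha0
  have hj0 : 64 ≤ j := by omega
  -- `sqrt`
  have hsq : Nat.sqrt (2 ^ (j + 1)) + 1 ≤ 4 * 2 ^ (j / 2) := by
    have h1 : Nat.sqrt (2 ^ (j + 1)) ≤ 2 ^ (j / 2 + 1) := by
      rw [← Nat.sqrt_eq' (2 ^ (j / 2 + 1))]
      apply Nat.sqrt_le_sqrt
      rw [← pow_mul]
      exact Nat.pow_le_pow_right (by norm_num) (by omega)
    have h2 : 1 ≤ 2 ^ (j / 2) := Nat.one_le_two_pow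
    have h3 : 2 ^ (j / 2 + 1) = 2 * 2 ^ (j / 2) := by rw [pow_succ]; ring
    omega
  have hlog : lg (2 ^ (j + 1)) = j + 1 + 1 := by
    unfold lg
    rw [Nat.log_pow (by norm_num)]
  set h := j / 2 with hh
  obtain ⟨H, hH⟩ : ∃ H, j = h + H := ⟨j - h, by omega⟩
  have hHh : j ≤ 2 * H := by omega
  have hgb : gb C0 (2 ^ (j + 1)) + 1 ≤ j ^ 16 * 2 ^ h := by
    unfold gb
    rw [hlog]
    have h2 : 1 ≤ 2 ^ h := Nat.one_le_two_pow
    calc C0 * (Nat.sqrt (2 ^ (j + 1)) + 1) * (j + 1 + 1) ^ 12 + 1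
        ≤ j * (4 * 2 ^ h) * (2 * j) ^ 12 + 1 := by
          have h3 : C0 ≤ j := by omega
          have h4 : j + 1 + 1 ≤ 2 * j := by omega
          gcongr
      _ = 2 ^ 14 * j ^ 13 * 2 ^ h + 1 := by ring
      _ ≤ 2 ^ 14 * j ^ 13 * 2 ^ h + 2 ^ 14 * j ^ 13 * 2 ^ h := by
          have : 1 ≤ 2 ^ 14 * j ^ 13 * 2 ^ h := Nat.one_le_iff_ne_zero.2 (by positivity)
          omega
      _ = 2 ^ 15 * (j ^ 13 * 2 ^ h) := by ring
      _ ≤ j ^ 3 * (j ^ 13 * 2 ^ h) := by
          refine Nat.mul_le_mul_right _ ?_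
          calc 2 ^ 15 ≤ 64 ^ 3 := by norm_num
            _ ≤ j ^ 3 := Nat.pow_le_pow_left hj0 3
      _ = j ^ 16 * 2 ^ h := by ring
  have hJ : j ^ 32 ≤ 2 ^ H := by
    by_contra hc
    have hc' : 2 ^ H < j ^ 32 := not_le.1 hc
    have h1 : (2 ^ H) ^ 2 < (j ^ 32) ^ 2 := Nat.pow_lt_pow_left hc' (by norm_num)
    have h2 : (j ^ 32) ^ 2 = j ^ 64 := by rw [← pow_mul]
    have h3 : 2 ^ j ≤ (2 ^ H) ^ 2 := by
      rw [← pow_mul]
      exact Nat.pow_le_pow_right (by norm_num) (by omega)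
    omega
  have hE : 2 * (j + 1) + (j + 1) * 2 ^ (j + 1) * (gb C0 (2 ^ (j + 1)) + 1) ≤
      8 * j ^ 17 * 2 ^ j * 2 ^ h := by
    have h1 : 2 * (j + 1) ≤ 2 * j * (2 ^ (j + 1) * (j ^ 16 * 2 ^ h)) := by
      have h2 : j + 1 ≤ 2 ^ (j + 1) := (Nat.lt_two_pow_self (n := j + 1)).le
      have h3 : 1 ≤ j ^ 16 * 2 ^ h := Nat.one_le_iff_ne_zero.2 (by positivity)
      calc 2 * (j + 1) ≤ 2 * j * (2 ^ (j + 1)) := by
            calc 2 * (j + 1) ≤ 2 * 2 ^ (j + 1) := by omega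
              _ ≤ 2 * j * 2 ^ (j + 1) := by
                refine Nat.mul_le_mul_right _ (by omega)
        _ ≤ 2 * j * (2 ^ (j + 1) * (j ^ 16 * 2 ^ h)) := by
            refine Nat.mul_le_mul_left _ ?_
            exact Nat.le_mul_of_pos_right _ (by omega)
    calc 2 * (j + 1) + (j + 1) * 2 ^ (j + 1) * (gb C0 (2 ^ (j + 1)) + 1)
        ≤ 2 * j * (2 ^ (j + 1) * (j ^ 16 * 2 ^ h)) +
          (2 * j) * 2 ^ (j + 1) * (j ^ 16 * 2 ^ h) := by
          have h4 : j + 1 ≤ 2 * j := by omega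
          gcongr
      _ = 8 * j ^ 17 * 2 ^ j * 2 ^ h := by ring
  have hfin : (2 * (j + 1) + (j + 1) * 2 ^ (j + 1) * (gb C0 (2 ^ (j + 1)) + 1)) * (8 * j) ^ 2 ≤
      a0 ^ 2 * (8 * j) ^ 2 := by
    calc (2 * (j + 1) + (j + 1) * 2 ^ (j + 1) * (gb C0 (2 ^ (j + 1)) + 1)) * (8 * j) ^ 2
        ≤ 8 * j ^ 17 * 2 ^ j * 2 ^ h * (8 * j) ^ 2 := Nat.mul_le_mul_right _ hE
      _ = 512 * (j ^ 19 * (2 ^ h * 2 ^ j)) := by ring
      _ ≤ j ^ 13 * (j ^ 19 * (2 ^ h * 2 ^ j)) := by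
          refine Nat.mul_le_mul_right _ ?_
          calc 512 ≤ 64 ^ 13 := by norm_num
            _ ≤ j ^ 13 := Nat.pow_le_pow_left hj0 13
      _ = j ^ 32 * (2 ^ h * 2 ^ j) := by ring
      _ ≤ 2 ^ H * (2 ^ h * 2 ^ j) := Nat.mul_le_mul_right _ hJ
      _ = (2 ^ h * 2 ^ H) * 2 ^ j := by ring
      _ = (2 ^ j) ^ 2 := by rw [← pow_add, ← hH, sq]
      _ ≤ (8 * j * a0) ^ 2 := Nat.pow_le_pow_left ha0 2
      _ = a0 ^ 2 * (8 * j) ^ 2 := by ring
  exact Nat.le_of_mul_le_mul_right hfin (by positivity)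

section

variable (C0 : ℕ) (gens : ∀ (d : ℕ) (L : Subgroup (Perm (Fin d))), L ∈ Tr (Fin d) →
  ¬ HasExpGrowth L → ∃ k : ℕ, k ≤ C0 * (Nat.sqrt d + 1) * lg d ^ 12 ∧ Gen ⊥ L k)

include gens in
/-- the bad classes are few -/
theorem bad_small : ∀ᶠ n : ℕ in atTop,
    n * ∑ d ∈ Finset.Icc 1 n, numClasses {L ∈ Tr (Fin d) | ¬ HasExpGrowth L} ≤ permN n := by
  have hlog : Tendsto (fun n : ℕ => Nat.log 2 n) atTop atTop := by
    refine tendsto_atTop.2 fun b => ?_
    filter_upwards [eventually_ge_atTop (2 ^ b)] with n hn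
    exact Nat.le_log_of_pow_le (by norm_num) hn
  filter_upwards [hlog.eventually (numeric C0), hlog.eventually (Asym.lower s2 s2_base),
    eventually_ge_atTop 1] with n h1 h2 hn1
  set j := Nat.log 2 n with hj
  obtain ⟨a0, ha0, hs⟩ := h2
  have hle : 2 ^ j ≤ n := Nat.pow_log_le_self 2 (by omega)
  have hlt : n < 2 ^ (j + 1) := Nat.lt_pow_succ_log_self (by norm_num) n
  have hnum := h1 a0 ha0
  have hfac : n.factorial ≤ 2 ^ ((j + 1) * 2 ^ (j + 1)) :=
    (Nat.factorial_le hlt.le).trans (Asym.factorial_le (j + 1))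
  have hgb : gb C0 n ≤ gb C0 (2 ^ (j + 1)) := gb_mono C0 hlt.le
  have key : (n * (n * n.factorial ^ gb C0 n)) * (2 ^ j).factorial ≤
      permN n * (2 ^ j).factorial := by
    refine le_trans ?_ (permN_lower n j hle)
    refine le_trans ?_ hs
    calc (n * (n * n.factorial ^ gb C0 n)) * (2 ^ j).factorial
        ≤ (2 ^ (j + 1) * (2 ^ (j + 1) *
            (2 ^ ((j + 1) * 2 ^ (j + 1))) ^ gb C0 (2 ^ (j + 1)))) *
            2 ^ ((j + 1) * 2 ^ (j + 1)) := by
          have h3 : n.factorial ^ gb C0 n ≤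
              (2 ^ ((j + 1) * 2 ^ (j + 1))) ^ gb C0 (2 ^ (j + 1)) :=
            (Nat.pow_le_pow_left hfac _).trans
              (Nat.pow_le_pow_right (by positivity) hgb)
          have h4 : (2 ^ j).factorial ≤ 2 ^ ((j + 1) * 2 ^ (j + 1)) :=
            (Nat.factorial_le hle).trans hfac
          gcongr
      _ = 2 ^ (2 * (j + 1) + (j + 1) * 2 ^ (j + 1) * (gb C0 (2 ^ (j + 1)) + 1)) := by
          rw [← pow_mul, ← pow_add, ← pow_add, ← pow_add]
          congr 1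
          ring
      _ ≤ 2 ^ (a0 ^ 2) := Nat.pow_le_pow_right (by norm_num) hnum
  have key2 := Nat.le_of_mul_le_mul_right key (Nat.factorial_pos _)
  exact le_trans (Nat.mul_le_mul_left _ (bad_le C0 gens n)) key2

theorem permN_pos {n : ℕ} (hn : 1 ≤ n) : 0 < permN n := by
  have h1 := permN_lower n 0 (by simpa using hn)
  have h2 := s2_pos 0
  by_contra h
  have h0 : permN n = 0 := by omega
  rw [h0, zero_mul] at h1
  omega

include gens in
theorem count_limit : Tendsto (fun n => (expN n : ℝ) / (permN n : ℝ)) atTop (nhds 1) := by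
  have hlow : Tendsto (fun n : ℕ => (1 : ℝ) - 1 / (n : ℝ)) atTop (nhds 1) := by
    have h2 := (tendsto_one_div_atTop_nhds_zero_nat (𝕜 := ℝ)).const_sub (1 : ℝ)
    simpa using h2
  have hle : ∀ n, expN n ≤ permN n := fun n =>
    Finset.sum_le_sum fun d _ => numClasses_mono (Set.sep_subset _ _)
  have hsplit : ∀ n, permN n ≤ expN n +
      ∑ d ∈ Finset.Icc 1 n, numClasses {L ∈ Tr (Fin d) | ¬ HasExpGrowth L} := by
    intro n
    unfold permN expN
    rw [← Finset.sum_add_distrib]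
    exact Finset.sum_le_sum fun d _ => numClasses_split _ _
  refine tendsto_of_tendsto_of_tendsto_of_le_of_le' hlow tendsto_const_nhds ?_ ?_
  · filter_upwards [bad_small C0 gens, eventually_ge_atTop 1] with n h1 hn
    have hp : (0 : ℝ) < permN n := by exact_mod_cast permN_pos hn
    have hn0 : (0 : ℝ) < n := by exact_mod_cast hn
    have h2 : (n : ℝ) * ∑ d ∈ Finset.Icc 1 n,
        (numClasses {L ∈ Tr (Fin d) | ¬ HasExpGrowth L} : ℝ) ≤ permN n := by exact_mod_cast h1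
    have h3 : (permN n : ℝ) ≤ expN n + ∑ d ∈ Finset.Icc 1 n,
        (numClasses {L ∈ Tr (Fin d) | ¬ HasExpGrowth L} : ℝ) := by exact_mod_cast hsplit n
    rw [le_div_iff₀ hp]
    have h4 : ∑ d ∈ Finset.Icc 1 n,
        (numClasses {L ∈ Tr (Fin d) | ¬ HasExpGrowth L} : ℝ) ≤ permN n / n := by
      rw [le_div_iff₀ hn0]
      linarith
    have h5 : (1 - 1 / (n : ℝ)) * permN n = permN n - permN n / n := by ring
    rw [h5]
    linarith
  · filter_upwards [eventually_ge_atTop 1] with n hn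
    have hp : (0 : ℝ) < permN n := by exact_mod_cast permN_pos hn
    rw [div_le_one hp]
    exact_mod_cast hle n

end

/-- the final statement from the criterion (block C) and the bound for the number of generators
(block A) -/
theorem count_main
    (crit : ∀ (d : ℕ) (L : Subgroup (Perm (Fin d))), L ∈ Tr (Fin d) → ¬ PP L → HasExpGrowth L)
    (few : ∃ C0 : ℕ, ∀ (d : ℕ) (L : Subgroup (Perm (Fin d))), L ∈ Tr (Fin d) → PP L →
      ∃ k : ℕ, k ≤ C0 * (Nat.sqrt d + 1) * lg d ^ 12 ∧ Gen ⊥ L k) :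
    Tendsto (fun n => (expN n : ℝ) / (permN n : ℝ)) atTop (nhds 1) := by
  obtain ⟨C0, h⟩ := few
  refine count_limit C0 fun d L hL hne => h d L hL ?_
  by_contra hP
  exact hne (crit d L hL hP)

end Pool.Agent.Lib.TGX
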